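import Mathlib
import Pool.Agent.Helper76.N4.Mon
import Pool.Agent.Helper77.HK.Chart

/-!
# A simple example for all numbers of factors and all types

The form `a 0` is `y1 ^ 2 - x1 * y0 ^ 2`, the other forms are the coordinates `y (r + 2)` (times the
first coordinates of the other factors).
-/

namespace Pool.Agent.Helper76.N2

open Pool.Agent.Helper64.HK Pool.Agent.Helper77.HK
open Pool.Agent.Helper28.HN (I aff)
open Pool.Agent.Helper76.N4 (Mo cM map_cM Mf_cM)

variable {k m : ℕ} {a : Fin (k + 1) → Fin (m + 1)} {S : Type*} [CommRing S]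

/-- The monomials. -/
def MN (a : Fin (k + 1) → Fin (m + 1)) (j1 : Fin k) : Fin (m + 1) → List (Mo k m) :=
  Fin.insertNth (a 0) [⟨1, Pi.single 0 1, Pi.single 0 1⟩, ⟨-1, Pi.single j1.succ 1, 0⟩]
    fun r => [⟨1, Pi.single 0 r.succ.succ, 0⟩]

/-- The coefficients. -/
def cN (a : Fin (k + 1) → Fin (m + 1)) (j1 : Fin k) : Ix a → S := cM (MN a j1)

variable (j1 : Fin k) {X : Fin (k + 1) → I m → S} (hX : ∀ j : Fin k, X j.succ 0 = 1)

include hX

theorem Mf1 (r : Fin m) (v : I m → S) :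
    Mf (cN a j1) ((a 0).succAbove r) (Function.update X 0 v) (Function.update X 0 v) =
      v r.succ.succ := by
  rw [cN, Mf_cM, MN, Fin.insertNth_apply_succAbove]
  have h0 : a 0 ≠ (a 0).succAbove r := (Fin.succAbove_ne _ _).symm
  simp [Fin.prod_univ_succ, hX, h0]

theorem Mf0 (v w : I m → S) :
    Mf (cN a j1) (a 0) (Function.update X 0 v) (Function.update X 0 w) =
      v 1 * w 1 - X j1.succ 1 * v 0 * w 0 := by
  rw [cN, Mf_cM, MN, Fin.insertNth_apply_same]
  have h1 : ∏ j : Fin k, X j.succ ((Pi.single j1.succ 1 : Fin (k + 1) → I m) j.succ) =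
      X j1.succ 1 := by
    rw [Finset.prod_eq_single j1]
    · rw [Pi.single_eq_same]
    · intro j _ hj
      rw [Pi.single_eq_of_ne (fun h => hj (Fin.succ_injective _ h)), hX]
    · simp
  simp only [List.map_cons, List.map_nil, List.sum_cons, List.sum_nil, Fin.prod_univ_succ,
    Function.update_self, Function.update_of_ne (Fin.succ_ne_zero _), h1]
  simp [hX]
  ring

theorem rfN (r : Fin m) (v : I m → S) : rf (cN a j1) 0 X r v = v r.succ.succ := by
  unfold rf Ef
  exact Mf1 j1 hX r v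

theorem MxN : Mx (cN a j1) X = 1 := by
  ext r b
  unfold Mx
  rw [rfN j1 hX]
  by_cases h : r = b
  · subst h
    simp
  · have h1 : r.succ.succ ≠ b.succ.succ := fun h' => h (Fin.succ_injective _ (Fin.succ_injective _ h'))
    rw [Pi.single_eq_of_ne h1, Matrix.one_apply_ne h]

theorem Y0N : Y0 (cN a j1) X = Pi.single 0 1 := by
  unfold Y0
  rw [MxN j1 hX, Matrix.det_one, Matrix.adjugate_one, Matrix.one_mulVec]
  funext i
  refine Fin.cases ?_ (fun i => Fin.cases ?_ (fun i => ?_) i) i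
  · simp
  · simp
  · simp [rfN j1 hX]

theorem Y1N : Y1 (cN a j1) X = Pi.single 1 1 := by
  unfold Y1
  rw [MxN j1 hX, Matrix.det_one, Matrix.adjugate_one, Matrix.one_mulVec]
  funext i
  refine Fin.cases ?_ (fun i => Fin.cases ?_ (fun i => ?_) i) i
  · simp
  · simp
  · have h1 : (Fin.succ (Fin.succ i) : I m) ≠ 1 := by
      intro h
      exact absurd (congrArg Fin.val h) (by simp)
    simp [rfN j1 hX, Pi.single_eq_of_ne h1]

theorem PfN (v w : I m → S) : Pf (cN a j1) 0 X v w =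
    2 * (v 1 * w 1 - X j1.succ 1 * v 0 * w 0) := by
  unfold Pf
  rw [Mf0 j1 hX, Mf0 j1 hX]
  ring

theorem AhN : Ah (cN a j1) X = 2 := by
  unfold Ah
  rw [Y1N j1 hX, PfN j1 hX]
  simp

theorem BhN : Bh (cN a j1) X = 0 := by
  unfold Bh
  rw [Y0N j1 hX, Y1N j1 hX, PfN j1 hX]
  simp

theorem ChN : Ch (cN a j1) X = -2 * X j1.succ 1 := by
  unfold Ch
  rw [Y0N j1 hX, PfN j1 hX]
  simp

end Pool.Agent.Helper76.N2
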