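import Mathlib
import Pool.Agent.Helper76.N2.Ex
import Pool.Agent.Helper76.XN.ET

/-!
# For general coefficients the equation over the chart has no rational root (at least two factors)

The discriminant has a simple zero on a fixed line.
-/

namespace Pool.Agent.Helper76.N2

open MvPolynomial Pool.Agent.Helper64.HK Pool.Agent.Helper77.HK
open Pool.Agent.Helper28.HN (I aff)
open Pool.Agent.Helper60.HN (dl dl_fst dl_snd dl_ext dl_add dl_mul dl_sub dl_eq_zero dl_cast dl_one
  aeval_dl)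
open Pool.Agent.Helper76.N4 (map_cM)

variable {k m : ℕ} {a : Fin (k + 1) → Fin (m + 1)} (j1 : Fin k)

section

variable {S : Type*} [CommRing S]

/-- The coordinates of the line. -/
def lu (t : S) : Fin k × Fin (m + 1) → S := fun q => if q = (j1, 0) then t else 0

/-- The discriminant on the line. -/
noncomputable def ds (c : Ix a → S) (t : S) : S :=
  Bh c (ct (lu j1 t)) ^ 2 - Ah c (ct (lu j1 t)) * Ch c (ct (lu j1 t))

/-- The determinant on the line. -/
noncomputable def dm (c : Ix a → S) (t : S) : S := (Mx c (ct (lu j1 t))).det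

theorem map_lu {S' : Type*} [CommRing S'] (f : S →+* S') (t : S) :
    (fun q => f (lu (m := m) j1 t q)) = lu j1 (f t) := by
  funext q
  unfold lu
  rw [apply_ite f, map_zero]

theorem map_ds {S' : Type*} [CommRing S'] (f : S →+* S') (c : Ix a → S) (t : S) :
    f (ds j1 c t) = ds j1 (fun e => f (c e)) (f t) := by
  unfold ds
  rw [map_sub, map_mul, map_pow, map_Ah, map_Bh, map_Ch, map_ct, map_lu]

theorem map_dm {S' : Type*} [CommRing S'] (f : S →+* S') (c : Ix a → S) (t : S) :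
    f (dm j1 c t) = dm j1 (fun e => f (c e)) (f t) := by
  unfold dm
  rw [map_det_Mx, map_ct, map_lu]

theorem ct_one (u : Fin k × Fin (m + 1) → S) (j : Fin k) : ct u j.succ 0 = 1 := rfl

theorem dsN (t : S) : ds j1 (cN a j1) t = 4 * t := by
  unfold ds
  rw [AhN j1 (ct_one _), BhN j1 (ct_one _), ChN j1 (ct_one _)]
  have h : ct (lu (m := m) j1 t) j1.succ 1 = t := by
    show lu j1 t (j1, 0) = t
    rw [lu, if_pos rfl]
  rw [h]
  ring

theorem dmN (t : S) : dm j1 (cN a j1) t = 1 := by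
  unfold dm
  rw [MxN j1 (ct_one _), Matrix.det_one]

end

/-- The discriminant as a polynomial in the coefficients and the parameter. -/
noncomputable def DF (a : Fin (k + 1) → Fin (m + 1)) (j1 : Fin k) : MvPolynomial (Ix a ⊕ Unit) ℚ :=
  ds j1 (fun e => X (Sum.inl e)) (X (Sum.inr ()))

/-- The determinant as a polynomial in the coefficients and the parameter. -/
noncomputable def DG (a : Fin (k + 1) → Fin (m + 1)) (j1 : Fin k) : MvPolynomial (Ix a ⊕ Unit) ℚ :=
  dm j1 (fun e => X (Sum.inl e)) (X (Sum.inr ()))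

theorem hom_DF {S : Type*} [CommRing S] [Algebra ℚ S] (v : Ix a ⊕ Unit → S) :
    aeval v (DF a j1) = ds j1 (fun e => v (Sum.inl e)) (v (Sum.inr ())) := by
  have h := map_ds j1 (aeval v : MvPolynomial (Ix a ⊕ Unit) ℚ →ₐ[ℚ] S).toRingHom
    (fun e => X (Sum.inl e)) (X (Sum.inr ()))
  refine h.trans ?_
  congr 1
  · funext e
    exact aeval_X _ _
  · exact aeval_X _ _

theorem hom_DG {S : Type*} [CommRing S] [Algebra ℚ S] (v : Ix a ⊕ Unit → S) :
    aeval v (DG a j1) = dm j1 (fun e => v (Sum.inl e)) (v (Sum.inr ())) := by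
  have h := map_dm j1 (aeval v : MvPolynomial (Ix a ⊕ Unit) ℚ →ₐ[ℚ] S).toRingHom
    (fun e => X (Sum.inl e)) (X (Sum.inr ()))
  refine h.trans ?_
  congr 1
  · funext e
    exact aeval_X _ _
  · exact aeval_X _ _

theorem eval_DF (v : Ix a ⊕ Unit → ℚ) :
    eval v (DF a j1) = ds j1 (fun e => v (Sum.inl e)) (v (Sum.inr ())) := by
  rw [← hom_DF]
  exact congrArg (fun f : ℚ →+* ℚ => eval₂ f v (DF a j1)) (Subsingleton.elim _ _)

theorem eval_DG (v : Ix a ⊕ Unit → ℚ) :
    eval v (DG a j1) = dm j1 (fun e => v (Sum.inl e)) (v (Sum.inr ())) := by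
  rw [← hom_DG]
  exact congrArg (fun f : ℚ →+* ℚ => eval₂ f v (DG a j1)) (Subsingleton.elim _ _)

theorem pd_DF : eval (Sum.elim (cN a j1) fun _ => 0) (pderiv (Sum.inr ()) (DF a j1)) = 4 := by
  have h := aeval_dl (Sum.elim (cN a j1) fun _ => 0) (Sum.elim (0 : Ix a → ℚ) fun _ => 1) (DF a j1)
  rw [hom_DF] at h
  have h1 : (fun e => dl ((Sum.elim (cN a j1) fun _ => 0 : Ix a ⊕ Unit → ℚ) (Sum.inl e))
      ((Sum.elim (0 : Ix a → ℚ) fun _ => 1 : Ix a ⊕ Unit → ℚ) (Sum.inl e))) = cN a j1 := by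
    funext e
    show dl (cN a j1 e) 0 = _
    rw [← dl_cast]
    exact congrFun (map_cM (algebraMap ℚ (DualNumber ℚ)) (MN a j1)) e
  rw [h1, dsN] at h
  have h2 := congrArg TrivSqZeroExt.snd h
  rw [dl_snd, Fintype.sum_sum_type] at h2
  simp only [Sum.elim_inl, Pi.zero_apply, zero_mul, Finset.sum_const_zero, zero_add, Sum.elim_inr,
    one_mul, Finset.univ_unique, Finset.sum_singleton] at h2
  rw [show (4 : DualNumber ℚ) = dl 4 0 by rw [← dl_cast, map_ofNat], dl_mul, dl_snd] at h2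
  rw [← h2]
  norm_num

section sp

variable {E J L : Type*} [Field L] [CharZero L]

/-- Specialisation of the coefficients. -/
noncomputable def sp (c : E → L) : MvPolynomial (E ⊕ J) ℚ →ₐ[ℚ] MvPolynomial J L :=
  aeval (Sum.elim (fun e => C (c e)) X)

theorem sp_pderiv (c : E → L) (j : J) (P : MvPolynomial (E ⊕ J) ℚ) :
    pderiv j (sp c P) = sp c (pderiv (Sum.inr j) P) := by
  classical
  induction P using MvPolynomial.induction_on with
  | C a =>
    rw [show sp (J := J) c (C a : MvPolynomial (E ⊕ J) ℚ) = C (algebraMap ℚ L a) by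
      rw [sp, aeval_C]
      rfl]
    simp
  | add p q hp hq => simp [hp, hq]
  | mul_X p s hp =>
    rw [map_mul, Derivation.leibniz, Derivation.leibniz, map_add, hp]
    simp only [smul_eq_mul, map_mul]
    congr 2
    rcases s with e | i
    · simp [sp, pderiv_X]
    · simp [sp, pderiv_X, Pi.single_apply]

theorem eval_sp (c : E → L) (x : J → L) (P : MvPolynomial (E ⊕ J) ℚ) :
    eval x (sp c P) = aeval (Sum.elim c x) P := by
  have : ((aeval x : MvPolynomial J L →ₐ[L] L).restrictScalars ℚ).comp (sp c) =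
      aeval (Sum.elim c x) := by
    ext s
    rcases s with e | i
    · simp [sp]
    · simp [sp]
  have h := DFunLike.congr_fun this P
  rw [← h]
  simp [aeval_eq_eval]

end sp

/-- A quadratic equation has a root only if the discriminant is a square. -/
theorem quad {R : Type*} [CommRing R] [IsDomain R] [IsIntegrallyClosed R]
    {A B C : R} (h : ∀ q : R, B ^ 2 - A * C ≠ q ^ 2) (r0 r1 : R)
    (hr : A * r0 ^ 2 - 2 * B * r0 * r1 + C * r1 ^ 2 = 0) : r0 = 0 ∧ r1 = 0 := by
  have e : (A * r0 - B * r1) ^ 2 = (B ^ 2 - A * C) * r1 ^ 2 := by linear_combination A * hr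
  have h1 : r1 = 0 := by
    by_contra h1
    have h2 : r1 ^ 2 ∣ (A * r0 - B * r1) ^ 2 := ⟨B ^ 2 - A * C, by rw [e]; ring⟩
    have h3 : r1 ∣ A * r0 - B * r1 := (IsIntegrallyClosed.pow_dvd_pow_iff two_ne_zero).1 h2
    obtain ⟨q, hq⟩ := h3
    refine h q ?_
    have h4 : r1 ^ 2 * (B ^ 2 - A * C) = r1 ^ 2 * q ^ 2 := by
      rw [mul_comm, ← e, hq]
      ring
    exact mul_left_cancel₀ (pow_ne_zero 2 h1) h4
  have hA : A ≠ 0 := fun h0 => h B (by rw [h0]; ring)
  refine ⟨?_, h1⟩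
  rw [h1] at hr
  have h5 : A * r0 ^ 2 = 0 := by linear_combination hr
  exact pow_eq_zero_iff two_ne_zero |>.1 ((mul_eq_zero.1 h5).resolve_left hA)

/-- For general coefficients. -/
theorem ns_all {k m : ℕ} (hk : 1 ≤ k) (a : Fin (k + 1) → Fin (m + 1)) :
    ∃ Δ : MvPolynomial (Ix a) ℚ, Δ ≠ 0 ∧
      ∀ (K : Type) [Field K] [CharZero K] (c : Ix a → K), aeval c Δ ≠ 0 → NS c ∧ Dp c ≠ 0 := by
  obtain ⟨j1⟩ : Nonempty (Fin k) := ⟨⟨0, hk⟩⟩
  obtain ⟨Δ, hΔ, h⟩ := Helper76.XN.et (E := Ix a) (I := Unit) (fun _ => DF a j1) (DG a j1)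
    (cN a j1) (fun _ => 0) (fun _ => by
      rw [eval_DF]
      exact (dsN j1 _).trans (mul_zero _)) (by
      rw [Matrix.det_unique]
      show eval _ (pderiv (Sum.inr ()) (DF a j1)) ≠ 0
      rw [pd_DF]
      norm_num) (by
      rw [eval_DG]
      exact ne_of_eq_of_ne (dmN j1 _) one_ne_zero)
  refine ⟨Δ, hΔ, fun K _ _ c hc => ?_⟩
  obtain ⟨L, _, _, _, _, x, g1, g2, g3⟩ := h K c hc
  rw [Matrix.det_unique] at g2
  change aeval _ (pderiv (Sum.inr ()) (DF a j1)) ≠ 0 at g2
  obtain ⟨cL, hcL⟩ : ∃ cL : Ix a → L, cL = fun e => algebraMap K L (c e) := ⟨_, rfl⟩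
  have g1' := g1 ()
  rw [← hcL] at g1' g2 g3
  refine ⟨ns_of_map (algebraMap K L) c ?_, ?_⟩
  · rw [← hcL]
    intro r0 r1 hr
    refine quad (fun q hq => ?_) r0 r1 hr
    obtain ⟨φ, hφ⟩ : ∃ φ : MvPolynomial (Fin k × Fin (m + 1)) L →+* MvPolynomial Unit L,
      φ = eval₂Hom C (lu j1 (X ())) := ⟨_, rfl⟩
    have hφc : (fun e => φ (C (cL e))) = fun e => C (cL e) := by
      funext e
      rw [hφ, eval₂Hom_C]
    have hφu : (fun l i => φ ((ct X : Fin (k + 1) → I m →
        MvPolynomial (Fin k × Fin (m + 1)) L) l i)) = ct (lu j1 (X ())) := by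
      rw [map_ct]
      congr 1
      funext e
      rw [hφ, eval₂Hom_X']
    have h1 : φ (Bp cL ^ 2 - Ap cL * Cp cL) = sp cL (DF a j1) := by
      rw [sp, hom_DF, map_sub, map_mul, map_pow, Ap, Bp, Cp, map_Ah, map_Bh, map_Ch, hφc, hφu]
      rfl
    rw [hq, map_pow] at h1
    have h2 : eval x (sp cL (DF a j1)) = 0 := by rw [eval_sp]; exact g1'
    rw [← h1, map_pow] at h2
    have h3 : eval x (φ q) = 0 := pow_eq_zero_iff two_ne_zero |>.1 h2
    refine g2 ?_
    rw [← eval_sp, ← sp_pderiv, ← h1, sq, Derivation.leibniz, smul_eq_mul, map_add, map_mul, h3]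
    ring
  · rw [hom_DG] at g3
    refine Dp_ne_of_map (algebraMap K L) c (lu j1 (x ())) ?_
    rw [← hcL]
    exact g3

end Pool.Agent.Helper76.N2
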